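import Pool.Agent.Helper67.PR.Star
import Pool.Agent.Helper28.PR.AB1
import Pool.Agent.Helper88.PR.AB7

/-!
# Products `TS`, `STS`: type II and orientation (piece PR-AB8 of `MP_339e9c_an`),
with the recognition theorem as a hypothesis
-/

namespace PR

open ContinuousLinearMap
open AB7Aux (RecAB)

section ab

variable {X : Type*} [NormedAddCommGroup X] [NormedSpace ℂ X] [CompleteSpace X]
variable {Y : Type*} [NormedAddCommGroup Y] [NormedSpace ℂ Y] [CompleteSpace Y]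

namespace H67

/-- the dual space is at least two-dimensional -/
theorem _root_.PR.Dim2.dual {X : Type*} [NormedAddCommGroup X] [NormedSpace ℂ X] (hX : Dim2 X) :
    Dim2 (X →L[ℂ] ℂ) := by
  obtain ⟨v, hv⟩ := hX
  choose f hf using fun i : Fin 2 => exists_dual_fin hv (fun j => if i = j then (1 : ℂ) else 0)
  refine ⟨f, ?_⟩
  rw [Fintype.linearIndependent_iff]
  intro g hg i
  have h1 := congrArg (fun F : X →L[ℂ] ℂ => F (v i)) hg
  simp only [ContinuousLinearMap.sum_apply, ContinuousLinearMap.smul_apply, smul_eq_mul,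
    ContinuousLinearMap.zero_apply] at h1
  rw [Finset.sum_eq_single i] at h1
  · simpa [hf] using h1
  · intro j _ hj
    rw [hf, if_neg hj, mul_zero]
  · intro h
    exact absurd (Finset.mem_univ i) h

theorem exists_pow_eq_rk {n : ℕ} (hn : n = 1 ∨ n = 2) {y : Y} {g : Y →L[ℂ] ℂ} (h : g y ≠ 0) :
    ∃ S : Y →L[ℂ] Y, S ^ n = rk y g := by
  rcases hn with rfl | rfl
  · exact ⟨rk y g, pow_one _⟩
  · obtain ⟨c, hc⟩ := IsAlgClosed.exists_pow_nat_eq (g y)⁻¹ (n := 2) (by norm_num)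
    refine ⟨c • rk y g, ?_⟩
    ext z
    simp only [pow_two, ContinuousLinearMap.mul_apply, ContinuousLinearMap.smul_apply, rk_apply,
      map_smul, smul_smul]
    congr 1
    have h2 : c * c = (g y)⁻¹ := by rw [← pow_two, hc]
    calc c * g z * (c * g y) = (c * c) * g y * g z := by ring
      _ = g z := by rw [h2, inv_mul_cancel₀ h, one_mul]

theorem sr_rk_mul (x : X) (f : X →L[ℂ] ℂ) (S : X →L[ℂ] X) : sr (rk x f * S) = ‖f (S x)‖ := by
  rw [sr_comm, sr_mul_rk]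

theorem ab_map_zero {n : ℕ} (hn : n = 1 ∨ n = 2)
    {φ : (X →L[ℂ] X) → (Y →L[ℂ] Y)} (hs : Function.Surjective φ)
    (h : ∀ T S, sr (φ T * φ S ^ n) = sr (T * S ^ n)) : φ 0 = 0 := by
  have h1 : ∀ S' : Y →L[ℂ] Y, PhaseFamR (sr (φ 0 * S' ^ n)) (sr ((0 : Y →L[ℂ] Y) * S' ^ n))
      (fun _ : ℂ => sr ((0 : Y →L[ℂ] Y) * S' ^ n)) := by
    intro S'
    obtain ⟨S, rfl⟩ := hs S'
    refine ⟨0, 0, ?_, ?_, fun s => ?_⟩
    · rw [h, zero_mul, sr_zero, norm_zero]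
    · rw [zero_mul, sr_zero, norm_zero]
    · simp [sr_zero]
  ext y
  refine eq_of_forall_dual fun g => ?_
  obtain ⟨a, b, ha, hb, hab⟩ := ab_test1 hn (C := fun _ => 0) h1 y g
  have h2 := hab 0
  simp only [ContinuousLinearMap.zero_apply, map_zero, norm_zero, zero_mul, add_zero] at h2
  rw [← h2] at ha
  rw [ContinuousLinearMap.zero_apply, map_zero]
  exact norm_eq_zero.1 ha

/-- there is a test operator which kills `x1` but does not kill the pair `x2, f0` -/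
theorem exists_test {n : ℕ} (hn : n = 1 ∨ n = 2) {x1 x2 : X} (h12 : LinearIndependent ℂ ![x1, x2])
    {f0 : X →L[ℂ] ℂ} (hf0 : f0 ≠ 0) : ∃ S : X →L[ℂ] X, (S ^ n) x1 = 0 ∧ f0 ((S ^ n) x2) ≠ 0 := by
  obtain ⟨e, he⟩ := exists_dual_fin h12 ![0, 1]
  have he1 : e x1 = 0 := by simpa using he 0
  have he2 : e x2 = 1 := by simpa using he 1
  have hene : e ≠ 0 := by
    rintro rfl
    simp at he2
  obtain ⟨z, hz1, hz2⟩ := exists_both_ne hf0 hene
  refine ⟨rk z e, ?_, ?_⟩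
  · rcases hn with rfl | rfl <;> simp [pow_two, he1]
  · rcases hn with rfl | rfl
    · simpa [he2] using hz1
    · simp only [pow_two, ContinuousLinearMap.mul_apply, rk_apply, he2, one_smul, map_smul,
        smul_eq_mul]
      exact mul_ne_zero hz2 hz1

end H67

open H67

/-- AB9. orientation. -/
theorem ab_orient_of_rec {n : ℕ} (hn : n = 1 ∨ n = 2) (hX : Dim2 X)
    (hrX : RecAB n X) (hrY : RecAB n Y)
    {φ : (X →L[ℂ] X) → (Y →L[ℂ] Y)} (hs : Function.Surjective φ)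
    (h : ∀ T S, sr (φ T * φ S ^ n) = sr (T * S ^ n)) :
    (∃ (f0 : X →L[ℂ] ℂ) (k0 : Y →L[ℂ] ℂ) (π : X → Y), f0 ≠ 0 ∧ k0 ≠ 0 ∧
      ∀ x, φ (rk x f0) = rk (π x) k0) ∨
    (∃ (x0 : X) (k0 : Y →L[ℂ] ℂ) (π : (X →L[ℂ] ℂ) → Y), x0 ≠ 0 ∧ k0 ≠ 0 ∧
      ∀ f, φ (rk x0 f) = rk (π f) k0) := by
  have h0 := ab_map_zero hn hs h
  obtain ⟨x1, x2, h12⟩ := hX.pair
  obtain ⟨hx1, hx2⟩ := li_ne_zero h12
  have h12' : ¬ Par x1 x2 := (li_iff_not_par hx1 hx2).1 h12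
  obtain ⟨f0, f1, hf01⟩ := hX.dual.pair
  obtain ⟨hf0, hf1⟩ := li_ne_zero hf01
  have hf01' : ¬ Par f0 f1 := (li_iff_not_par hf0 hf1).1 hf01
  -- the first star
  have hR : ∀ v : X, ∃ (u : Y) (k : Y →L[ℂ] ℂ), v ≠ 0 → (u ≠ 0 ∧ k ≠ 0 ∧ φ (rk v f0) = rk u k) := by
    intro v
    by_cases hv : v = 0
    · exact ⟨0, 0, fun h' => absurd hv h'⟩
    obtain ⟨w, hw⟩ := hX.partner hv
    obtain ⟨x, y, f, g, hx, -, hf, -, e1, -⟩ :=
      hrY ((lpab_map hs h _ _).1 (lpab_right hn hw hf0))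
    exact ⟨x, f, fun _ => ⟨hx, hf, e1⟩⟩
  choose u k huk using hR
  have hR' : ∀ f : X →L[ℂ] ℂ, ∃ (u : Y) (k : Y →L[ℂ] ℂ),
      f ≠ 0 → (u ≠ 0 ∧ k ≠ 0 ∧ φ (rk x1 f) = rk u k) := by
    intro v
    by_cases hv : v = 0
    · exact ⟨0, 0, fun h' => absurd hv h'⟩
    obtain ⟨w, hw⟩ := hX.dual.partner hv
    obtain ⟨x, y, f, g, hx, -, hf, -, e1, -⟩ :=
      hrY ((lpab_map hs h _ _).1 (lpab_left hn hx1 hw))
    exact ⟨x, f, fun _ => ⟨hx, hf, e1⟩⟩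
  choose u' k' huk' using hR'
  -- the alternative for a linear pair of images
  have halt : ∀ {A B : X →L[ℂ] X} {a b : Y} {p q : Y →L[ℂ] ℂ}, LPab n A B → a ≠ 0 → b ≠ 0 →
      p ≠ 0 → q ≠ 0 → φ A = rk a p → φ B = rk b q →
      (Par a b ∧ ¬ Par p q) ∨ (¬ Par a b ∧ Par p q) := by
    intro A B a b p q hAB ha hb hp hq eA eB
    obtain ⟨x, y, f, g, hx, hy, hf, hg, e1, e2, hh⟩ := hrY ((lpab_map hs h _ _).1 hAB)
    obtain ⟨p1, p2⟩ := rk_par ha hp hx (eA.symm.trans e1)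
    obtain ⟨q1, q2⟩ := rk_par hb hq hy (eB.symm.trans e2)
    rcases hh with ⟨hc, hfg⟩ | ⟨hxy, hc⟩
    · left
      refine ⟨(p1.trans (par_of_smul hy hc)).trans q1.symm, fun h' => ?_⟩
      exact (li_iff_not_par hf hg).1 hfg ((p2.symm.trans h').trans q2)
    · right
      refine ⟨fun h' => ?_, (p2.trans (par_of_smul hg hc)).trans q2.symm⟩
      exact (li_iff_not_par hx hy).1 hxy ((p1.symm.trans h').trans q1)
  have hstar : ∀ v w : X, v ≠ 0 → w ≠ 0 → ¬ Par v w →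
      (Par (u v) (u w) ∧ ¬ Par (k v) (k w)) ∨ (¬ Par (u v) (u w) ∧ Par (k v) (k w)) := by
    intro v w hv hw hvw
    obtain ⟨a1, a2, a3⟩ := huk v hv
    obtain ⟨b1, b2, b3⟩ := huk w hw
    exact halt (lpab_right hn ((li_iff_not_par hv hw).2 hvw) hf0) a1 b1 a2 b2 a3 b3
  have hstar' : ∀ v w : X →L[ℂ] ℂ, v ≠ 0 → w ≠ 0 → ¬ Par v w →
      (Par (u' v) (u' w) ∧ ¬ Par (k' v) (k' w)) ∨ (¬ Par (u' v) (u' w) ∧ Par (k' v) (k' w)) := by
    intro v w hv hw hvw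
    obtain ⟨a1, a2, a3⟩ := huk' v hv
    obtain ⟨b1, b2, b3⟩ := huk' w hw
    exact halt (lpab_left hn hx1 ((li_iff_not_par hv hw).2 hvw)) a1 b1 a2 b2 a3 b3
  obtain ⟨a1, a2, a3⟩ := huk x1 hx1
  obtain ⟨b1, b2, b3⟩ := huk x2 hx2
  rcases hstar x1 x2 hx1 hx2 h12' with ⟨hA1, hA2⟩ | ⟨hB1, hB2⟩
  · -- the second star has a common functional
    right
    obtain ⟨c1, c2, c3⟩ := huk' f0 hf0
    obtain ⟨d1, d2, d3⟩ := huk' f1 hf1
    obtain ⟨r1, r2⟩ := rk_par a1 a2 c1 (a3.symm.trans c3)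
    have hmain : ¬ Par (u' f0) (u' f1) ∧ Par (k' f0) (k' f1) := by
      rcases hstar' f0 f1 hf0 hf1 hf01' with ⟨p1, p2⟩ | hp
      · exfalso
        have q1 : Par (u' f1) (u x2) := (p1.symm.trans r1.symm).trans hA1
        by_cases hkk : Par (k x2) (k' f1)
        · -- the images of `rk x1 f1` and `rk x2 f0` are parallel
          obtain ⟨c, hc, e⟩ := q1.symm
          obtain ⟨d, hd, e'⟩ := hkk
          have e3 : φ (rk x1 f1) = (d * c) • φ (rk x2 f0) := by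
            rw [d3, b3, e, e', rk_smul, smul_rk, smul_smul]
          obtain ⟨S, hS1, hS2⟩ := exists_test hn h12 hf0
          have e4 : sr (φ (rk x1 f1) * φ S ^ n) = 0 := by
            rw [h, sr_rk_mul, hS1, map_zero, norm_zero]
          have e5 : sr (φ (rk x2 f0) * φ S ^ n) ≠ 0 := by
            rw [h, sr_rk_mul]
            exact norm_ne_zero_iff.2 hS2
          rw [e3, smul_mul_assoc, sr_smul] at e4
          exact (mul_ne_zero (norm_ne_zero_iff.2 (mul_ne_zero hd hc)) e5) e4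
        · obtain ⟨c, hc, e⟩ := q1
          have hLI : LinearIndependent ℂ ![k' f1, c • k x2] := by
            rw [li_iff_not_par d2 (smul_ne_zero hc b2)]
            intro h'
            have : Par (k x2) (c • k x2) := ⟨c, hc, rfl⟩
            exact hkk (this.trans h'.symm)
          have hlp : LPab n (φ (rk x1 f1)) (φ (rk x2 f0)) := by
            rw [d3, b3, e, ← rk_smul]
            exact lpab_left hn d1 hLI
          obtain ⟨x, y, f, g, hx, hy, hf, hg, e1, e2, hh⟩ := hrX ((lpab_map hs h _ _).2 hlp)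
          obtain ⟨s1, s2⟩ := rk_par hx1 hf1 hx e1
          obtain ⟨t1, t2⟩ := rk_par hx2 hf0 hy e2
          rcases hh with ⟨hc', -⟩ | ⟨-, hc'⟩
          · exact h12' ((s1.trans (par_of_smul hy hc')).trans t1.symm)
          · exact hf01' ((s2.trans (par_of_smul hg hc')).trans t2.symm).symm
      · exact hp
    have hall : ∀ f : X →L[ℂ] ℂ, ∃ w : Y, φ (rk x1 f) = rk w (k' f0) := by
      intro f
      by_cases hf : f = 0
      · exact ⟨0, by rw [hf, rk_zero_right, h0, rk_zero_left]⟩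
      obtain ⟨c, -, hc⟩ := star_comb hstar' hf0 hf1 hf01' hmain.1 hmain.2 hf
      obtain ⟨-, -, e⟩ := huk' f hf
      exact ⟨c • u' f, by rw [e, hc, rk_smul]⟩
    choose π hπ using hall
    exact ⟨x1, k' f0, π, hx1, c2, hπ⟩
  · left
    have hall : ∀ x : X, ∃ w : Y, φ (rk x f0) = rk w (k x1) := by
      intro x
      by_cases hx : x = 0
      · exact ⟨0, by rw [hx, rk_zero_left, h0, rk_zero_left]⟩
      obtain ⟨c, -, hc⟩ := star_comb hstar hx1 hx2 h12' hB1 hB2 hx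
      obtain ⟨-, -, e⟩ := huk x hx
      exact ⟨c • u x, by rw [e, hc, rk_smul]⟩
    choose π hπ using hall
    exact ⟨f0, k x1, π, hf0, a2, hπ⟩

/-- AB8. type II, reduction to type I for the dual space. -/
theorem ab_typeII_of_rec {n : ℕ} (hn : n = 1 ∨ n = 2) (hX : Dim2 X)
    (hrX : RecAB n X) (hrY : RecAB n Y) (hrX' : RecAB n (X →L[ℂ] ℂ))
    {φ : (X →L[ℂ] X) → (Y →L[ℂ] Y)} (hs : Function.Surjective φ)
    (h : ∀ T S, sr (φ T * φ S ^ n) = sr (T * S ^ n))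
    (h1 : ∃ (x0 : X) (k0 : Y →L[ℂ] ℂ) (π : (X →L[ℂ] ℂ) → Y), x0 ≠ 0 ∧ k0 ≠ 0 ∧
      ∀ f, φ (rk x0 f) = rk (π f) k0) :
    ∃ c : (X →L[ℂ] X) → ℂ, (∀ T, ‖c T‖ = 1) ∧ FormII c (fun _ => 0) φ := by
  obtain ⟨x0, k0, π, hx0, hk0, hπ⟩ := h1
  have hX' : Dim2 (X →L[ℂ] ℂ) := hX.dual
  -- every functional on `Y` is, in modulus, an evaluation
  have hz : ∀ g : Y →L[ℂ] ℂ, ∃ z : X, ∀ f : X →L[ℂ] ℂ, ‖g (π f)‖ = ‖f z‖ := by
    intro g
    by_cases hg : g = 0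
    · exact ⟨0, fun f => by simp [hg]⟩
    obtain ⟨y, hy1, hy2⟩ := exists_both_ne hk0 hg
    obtain ⟨S', hS'⟩ := exists_pow_eq_rk hn hy2
    obtain ⟨S, rfl⟩ := hs S'
    refine ⟨(k0 y)⁻¹ • (S ^ n) x0, fun f => ?_⟩
    have e1 := h (rk x0 f) S
    rw [sr_rk_mul, hπ, hS', sr_mul_rk, rk_apply, map_smul, norm_smul] at e1
    rw [map_smul, norm_smul, ← e1, norm_inv, ← mul_assoc,
      inv_mul_cancel₀ (norm_ne_zero_iff.2 hy1), one_mul]
  have hπ0 : ∀ f, f ≠ 0 → π f ≠ 0 := by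
    intro f hf h0
    have e1 : φ (rk x0 f) = 0 := by rw [hπ, h0, rk_zero_left]
    obtain ⟨w, hw⟩ := hX.partner hx0
    obtain ⟨S, hS1, hS2⟩ := exists_test hn (li_symm hw) hf
    have e2 := h (rk x0 f) S
    rw [e1, zero_mul, sr_zero, sr_rk_mul] at e2
    exact norm_ne_zero_iff.2 hS2 e2.symm
  have hwig : (∃ A : (X →L[ℂ] ℂ) →ₗ[ℂ] Y, ∀ v, ∃ θ : ℂ, ‖θ‖ = 1 ∧ π v = θ • A v) ∨
      (∃ A : (X →L[ℂ] ℂ) →ₛₗ[starRingEnd ℂ] Y, ∀ v, ∃ θ : ℂ, ‖θ‖ = 1 ∧ π v = θ • A v) := by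
    refine wigner_pairing π hX'.pair hπ0 fun g v w => ?_
    obtain ⟨z, hz'⟩ := hz g
    refine ⟨v z, w z, hz' v, hz' w, fun s => ?_⟩
    rw [hz']
    simp
  obtain ⟨A, hA, hAπ⟩ : ∃ A : (X →L[ℂ] ℂ) → Y, LinOrConj A ∧
      ∀ v, ∃ θ : ℂ, ‖θ‖ = 1 ∧ π v = θ • A v := by
    rcases hwig with ⟨A, hA⟩ | ⟨A, hA⟩
    · exact ⟨A, Or.inl ⟨A, fun _ => rfl⟩, hA⟩
    · exact ⟨A, Or.inr ⟨A, fun _ => rfl⟩, hA⟩
  have hzA : ∀ g : Y →L[ℂ] ℂ, ∃ z : X, ∀ f : X →L[ℂ] ℂ, ‖g (A f)‖ = ‖f z‖ := by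
    intro g
    obtain ⟨z, hz'⟩ := hz g
    refine ⟨z, fun f => ?_⟩
    obtain ⟨θ, hθ, e⟩ := hAπ f
    rw [← hz' f, e, map_smul, norm_smul, hθ, one_mul]
  have hA0 : ∀ f, f ≠ 0 → A f ≠ 0 := by
    intro f hf h0
    obtain ⟨θ, hθ, e⟩ := hAπ f
    exact hπ0 f hf (by rw [e, h0, smul_zero])
  have hinj : Function.Injective A := by
    intro f f' hff
    by_contra hne
    refine hA0 (f - f') (sub_ne_zero.2 hne) ?_
    have e1 := hA.add f' (f - f')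
    rw [add_sub_cancel, hff] at e1
    exact left_eq_add.1 e1
  have hsurj : Function.Surjective A := by
    intro u
    by_cases hu : u = 0
    · exact ⟨0, by rw [hu, hA.map_zero]⟩
    obtain ⟨f1, f2, hf12⟩ := hX'.pair
    obtain ⟨hf1, hf2⟩ := li_ne_zero hf12
    -- `u` parallel to some `π f` implies that `u` is in the range
    have hpar : ∀ f : X →L[ℂ] ℂ, Par (π f) u → ∃ f', A f' = u := by
      rintro f ⟨c, hc, rfl⟩
      obtain ⟨θ, hθ, e⟩ := hAπ f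
      rcases hA with ⟨L, hL⟩ | ⟨L, hL⟩
      · refine ⟨(c * θ) • f, ?_⟩
        rw [hL, map_smul, ← hL, e, smul_smul]
      · refine ⟨(starRingEnd ℂ (c * θ)) • f, ?_⟩
        rw [hL, LinearMap.map_smulₛₗ, ← hL, e, smul_smul, Complex.conj_conj]
    by_cases hp1 : Par (π f1) u
    · exact hpar f1 hp1
    by_cases hp2 : Par (π f2) u
    · exact hpar f2 hp2
    obtain ⟨T, hT⟩ := hs (rk u k0)
    have hT1 : ∀ f, f ≠ 0 → ¬ Par (π f) u → LPab n T (rk x0 f) := by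
      intro f hf hp
      rw [lpab_map hs h, hT, hπ]
      exact lpab_right hn (li_symm ((li_iff_not_par (hπ0 f hf) hu).2 hp)) hk0
    have hT2 : ∀ f, f ≠ 0 → ¬ Par (π f) u → ∃ (x : X) (e : X →L[ℂ] ℂ), x ≠ 0 ∧ e ≠ 0 ∧
        T = rk x e ∧ (Par x0 x ∨ Par e f) := by
      intro f hf hp
      obtain ⟨x, y, e, g, hx, hy, he, hg, e1, e2, hh⟩ := hrX (hT1 f hf hp)
      obtain ⟨s1, s2⟩ := rk_par hx0 hf hy e2
      refine ⟨x, e, hx, he, e1, ?_⟩
      rcases hh with ⟨hc, -⟩ | ⟨-, hc⟩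
      · left
        exact s1.trans (par_of_smul hy hc).symm
      · right
        exact (par_of_smul hg hc).trans s2.symm
    obtain ⟨x, e, hx, he, hTe, hh⟩ := hT2 f1 hf1 hp1
    obtain ⟨x', e', hx', he', hTe', hh'⟩ := hT2 f2 hf2 hp2
    obtain ⟨s1, s2⟩ := rk_par hx he hx' (hTe.symm.trans hTe')
    have hx0x : Par x0 x := by
      rcases hh with hh | hh
      · exact hh
      rcases hh' with hh' | hh'
      · exact hh'.trans s1.symm
      · exfalso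
        exact (li_iff_not_par hf1 hf2).1 hf12 ((hh.symm.trans s2).trans hh')
    obtain ⟨c, hc, rfl⟩ := hx0x
    rw [← rk_smul] at hTe
    have e5 : rk (π (c • e)) k0 = rk u k0 := by rw [← hπ, ← hT, hTe]
    exact hpar (c • e) (rk_par (hπ0 _ (smul_ne_zero hc he)) hk0 hu e5).1
  have hbij : Function.Bijective A := ⟨hinj, hsurj⟩
  have hR : Refl X := refl_of_bij hA hbij hzA
  -- the map on the operators on the dual
  choose pre hpre using fun S : (X →L[ℂ] ℂ) →L[ℂ] (X →L[ℂ] ℂ) => dmap_surj hR S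
  set ψ : ((X →L[ℂ] ℂ) →L[ℂ] (X →L[ℂ] ℂ)) → (Y →L[ℂ] Y) := fun S => φ (pre S) with hψdef
  have hψ : ∀ T, ψ (dmap T) = φ T := by
    intro T
    rw [hψdef]
    change φ (pre (dmap T)) = φ T
    rw [dmap_inj (hpre (dmap T))]
  have hψs : Function.Surjective ψ := by
    intro Z
    obtain ⟨T, rfl⟩ := hs Z
    exact ⟨dmap T, hψ T⟩
  have hψh : ∀ T S, sr (ψ T * ψ S ^ n) = sr (T * S ^ n) := by
    intro T S
    obtain ⟨T, rfl⟩ := dmap_surj hR T
    obtain ⟨S, rfl⟩ := dmap_surj hR S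
    rw [hψ, hψ, h, ← dmap_pow, ← dmap_mul, sr_dmap, sr_comm]
  have hev : ev x0 ≠ 0 := by
    intro h0
    refine hx0 (eq_of_forall_dual fun f => ?_)
    rw [map_zero]
    exact congrArg (fun F => F f) h0
  obtain ⟨c, hc, hF⟩ := ab_typeI_of_rec hn hX' hrX' hrY hψs hψh ⟨ev x0, k0, π, hev, hk0, fun f => by
    rw [← dmap_rk, hψ, hπ]⟩
  exact ⟨fun T => c (dmap T), fun T => hc _, formII_of_formI hR hψ hF⟩

end ab

end PR
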