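import Pool.Agent.Helper67.PR.AB8Core
import Pool.Agent.Helper59.PR.AB4

/-!
# Products `TS`, `STS`: type II and orientation (piece PR-AB8 of `MP_339e9c_an`)
-/

namespace PR

open ContinuousLinearMap

section ab

variable {X : Type*} [NormedAddCommGroup X] [NormedSpace ℂ X] [CompleteSpace X]
variable {Y : Type*} [NormedAddCommGroup Y] [NormedSpace ℂ Y] [CompleteSpace Y]

/-- AB8. type II, reduction to type I for the dual space. -/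
theorem ab_typeII {n : ℕ} (hn : n = 1 ∨ n = 2) (hX : Dim2 X)
    {φ : (X →L[ℂ] X) → (Y →L[ℂ] Y)} (hs : Function.Surjective φ)
    (h : ∀ T S, sr (φ T * φ S ^ n) = sr (T * S ^ n))
    (h1 : ∃ (x0 : X) (k0 : Y →L[ℂ] ℂ) (π : (X →L[ℂ] ℂ) → Y), x0 ≠ 0 ∧ k0 ≠ 0 ∧
      ∀ f, φ (rk x0 f) = rk (π f) k0) :
    ∃ c : (X →L[ℂ] X) → ℂ, (∀ T, ‖c T‖ = 1) ∧ FormII c (fun _ => 0) φ :=
  ab_typeII_of_rec hn hX (fun {_ _} => rec_ab hn) (fun {_ _} => rec_ab hn)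
    (fun {_ _} => rec_ab hn) hs h h1

/-- AB9. orientation. -/
theorem ab_orient {n : ℕ} (hn : n = 1 ∨ n = 2) (hX : Dim2 X)
    {φ : (X →L[ℂ] X) → (Y →L[ℂ] Y)} (hs : Function.Surjective φ)
    (h : ∀ T S, sr (φ T * φ S ^ n) = sr (T * S ^ n)) :
    (∃ (f0 : X →L[ℂ] ℂ) (k0 : Y →L[ℂ] ℂ) (π : X → Y), f0 ≠ 0 ∧ k0 ≠ 0 ∧
      ∀ x, φ (rk x f0) = rk (π x) k0) ∨
    (∃ (x0 : X) (k0 : Y →L[ℂ] ℂ) (π : (X →L[ℂ] ℂ) → Y), x0 ≠ 0 ∧ k0 ≠ 0 ∧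
      ∀ f, φ (rk x0 f) = rk (π f) k0) :=
  ab_orient_of_rec hn hX (fun {_ _} => rec_ab hn) (fun {_ _} => rec_ab hn) hs h

end ab

end PR
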