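import Pool.Agent.Helper67.PR.CD14Core
import Pool.Agent.Helper42.PR.CD10
import Pool.Agent.Helper16.PR.CD16

/-!
# Products `TS ± ST`: the main theorem (piece PR-CD14 of `MP_339e9c_an`)
-/

namespace PR

open ContinuousLinearMap

section cd

variable {X : Type*} [NormedAddCommGroup X] [NormedSpace ℂ X] [CompleteSpace X]
variable {Y : Type*} [NormedAddCommGroup Y] [NormedSpace ℂ Y] [CompleteSpace Y]
variable {σ : ℂ}

/-- CD14, dimension at least three. -/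
theorem main_cd_three (hσ : σ = 1 ∨ σ = -1) (hX : Dim3 X) (hY : Dim3 Y)
    {φ : (X →L[ℂ] X) → (Y →L[ℂ] Y)} (hs : Function.Surjective φ)
    (h : ∀ T S, sr (bra σ (φ T) (φ S)) = sr (bra σ T S)) :
    ∃ c h : (X →L[ℂ] X) → ℂ, (∀ T, ‖c T‖ = 1) ∧ (σ = 1 → h = fun _ => 0) ∧
      (FormI c h φ ∨ FormII c h φ) :=
  main_cd_three_of hσ hX hY h (fun hu hk hku => cd_flag_surj hσ hX hY hs h hu hk hku)
    (cd_orient hσ hX hY hs h)

theorem main_cd (hσ : σ = 1 ∨ σ = -1) [Nontrivial X] [Nontrivial Y]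
    {φ : (X →L[ℂ] X) → (Y →L[ℂ] Y)} (hs : Function.Surjective φ)
    (h : ∀ T S, sr (bra σ (φ T) (φ S)) = sr (bra σ T S)) :
    ∃ c h : (X →L[ℂ] X) → ℂ, (∀ T, ‖c T‖ = 1) ∧ (σ = 1 → h = fun _ => 0) ∧
      (FormI c h φ ∨ FormII c h φ) := by
  have hd := dim_iff hσ hs h
  by_cases h3 : Dim3 X
  · exact main_cd_three hσ h3 (hd.2.1 h3) hs h
  · by_cases h2 : Dim2 X
    · exact main_cd_two hσ h2 h3 (hd.1.1 h2) (fun h => h3 (hd.2.2 h)) hs h
    · exact main_cd_one hσ h2 (fun h => h2 (hd.1.2 h)) h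

end cd

end PR
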