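import Pool.Agent.Helper67.PR.Star
import Pool.Agent.Helper8.PR.CD1
import Pool.Agent.Helper34.PR.CD11B
import Pool.Agent.Helper31.PR.CD12
import Pool.Agent.Helper65.PR.CD15

/-!
# Products `TS ± ST`: the main theorem (piece PR-CD14 of `MP_339e9c_an`),
core forms
-/

namespace PR

open ContinuousLinearMap
open H67

section dims

/-- the dual space is at least three-dimensional -/
theorem Dim3.dual {X : Type*} [NormedAddCommGroup X] [NormedSpace ℂ X] (hX : Dim3 X) :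
    Dim3 (X →L[ℂ] ℂ) := by
  obtain ⟨v, hv⟩ := hX
  choose f hf using fun i : Fin 3 => exists_dual_fin hv (fun j => if i = j then (1 : ℂ) else 0)
  refine ⟨f, ?_⟩
  rw [Fintype.linearIndependent_iff]
  intro g hg i
  have h1 := congrArg (fun F : X →L[ℂ] ℂ => F (v i)) hg
  simp only [ContinuousLinearMap.sum_apply, ContinuousLinearMap.smul_apply, smul_eq_mul,
    ContinuousLinearMap.zero_apply] at h1
  rw [Finset.sum_eq_single i] at h1
  · simpa [hf] using h1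
  · intro j _ hj
    rw [hf, if_neg hj, mul_zero]
  · intro h
    exact absurd (Finset.mem_univ i) h

/-- in dimension one the space is isomorphic to any other space of dimension one -/
theorem H67.exists_equiv_one {X Y : Type*} [NormedAddCommGroup X] [NormedSpace ℂ X]
    [NormedAddCommGroup Y] [NormedSpace ℂ Y] [Nontrivial X] [Nontrivial Y]
    (hX : ¬ Dim2 X) (hY : ¬ Dim2 Y) : Nonempty (X ≃L[ℂ] Y) := by
  have key : ∀ {Z : Type _} [NormedAddCommGroup Z] [NormedSpace ℂ Z] [Nontrivial Z],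
      ¬ Dim2 Z → Module.finrank ℂ Z = 1 := by
    intro Z _ _ _ hZ
    obtain ⟨v, hv⟩ := exists_ne (0 : Z)
    refine finrank_eq_one v hv fun w => ?_
    by_contra hw
    push Not at hw
    exact hZ ⟨![v, w], (LinearIndependent.pair_iff' hv).2 hw⟩
  have key' : ∀ {Z : Type _} [NormedAddCommGroup Z] [NormedSpace ℂ Z] [Nontrivial Z],
      ¬ Dim2 Z → Module.finrank ℂ Z = 1 := by
    intro Z _ _ _ hZ
    obtain ⟨v, hv⟩ := exists_ne (0 : Z)
    refine finrank_eq_one v hv fun w => ?_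
    by_contra hw
    push Not at hw
    exact hZ ⟨![v, w], (LinearIndependent.pair_iff' hv).2 hw⟩
  have h1 := key hX
  have h2 := key' hY
  have : FiniteDimensional ℂ X := FiniteDimensional.of_finrank_pos (by rw [h1]; norm_num)
  have : FiniteDimensional ℂ Y := FiniteDimensional.of_finrank_pos (by rw [h2]; norm_num)
  exact FiniteDimensional.nonempty_continuousLinearEquiv_of_finrank_eq (h1.trans h2.symm)

end dims

section cd

variable {X : Type*} [NormedAddCommGroup X] [NormedSpace ℂ X] [CompleteSpace X]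
variable {Y : Type*} [NormedAddCommGroup Y] [NormedSpace ℂ Y] [CompleteSpace Y]
variable {σ : ℂ}

/-- uniqueness of the decomposition rank one plus scalar -/
theorem H67.rk_add_scalar_par (hY : Dim3 Y) {a b : Y} {f g : Y →L[ℂ] ℂ} {c c' γ γ' : ℂ}
    (ha : a ≠ 0) (hf : f ≠ 0) (hb : b ≠ 0) (hc : c ≠ 0) (hc' : c' ≠ 0)
    (h : c • rk a f + γ • (1 : Y →L[ℂ] Y) = c' • rk b g + γ' • (1 : Y →L[ℂ] Y)) :
    Par a b ∧ Par f g := by
  obtain ⟨z, hz, hz1, hz2⟩ := CD12.exists_ker_two hY f g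
  have h1 : γ = γ' := by
    have h2 := congrArg (fun T => T z) h
    simp only [ContinuousLinearMap.add_apply, ContinuousLinearMap.smul_apply, rk_apply, hz1, hz2,
      zero_smul, smul_zero, zero_add, ContinuousLinearMap.one_apply] at h2
    have h3 : (γ - γ') • z = 0 := by rw [sub_smul, h2, sub_self]
    rcases smul_eq_zero.1 h3 with h4 | h4
    · exact sub_eq_zero.1 h4
    · exact absurd h4 hz
  rw [h1, add_left_inj, smul_rk, smul_rk] at h
  obtain ⟨p1, p2⟩ := rk_par (smul_ne_zero hc ha) hf (smul_ne_zero hc' hb) h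
  have q1 : Par a (c • a) := ⟨c, hc, rfl⟩
  have q2 : Par b (c' • b) := ⟨c', hc', rfl⟩
  exact ⟨(q1.trans p1).trans q2.symm, p2⟩

theorem Dim3.nontrivial {Z : Type*} [AddCommGroup Z] [Module ℂ Z] (hZ : Dim3 Z) :
    Nontrivial Z := by
  obtain ⟨v, hv⟩ := hZ
  exact ⟨v 0, 0, hv.ne_zero 0⟩

/-- for `σ = 1` the scalar part of the image of a flag vanishes -/
theorem H67.flag_scalar_zero [Nontrivial Y] {φ : (X →L[ℂ] X) → (Y →L[ℂ] Y)}
    (h : ∀ T S, sr (bra 1 (φ T) (φ S)) = sr (bra 1 T S)) {x : X} {f : X →L[ℂ] ℂ} (hfx : f x = 0)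
    {u : Y} {k : Y →L[ℂ] ℂ} (hku : k u = 0) {θ γ : ℂ}
    (e : φ (rk x f) = θ • rk u k + γ • (1 : Y →L[ℂ] Y)) : γ = 0 := by
  have h1 := h (rk x f) (rk x f)
  rw [sr_bra_self, sr_bra_self, sr_rk, hfx, norm_zero] at h1
  have h2 : sr (φ (rk x f)) = 0 := by
    have : sr (φ (rk x f)) ^ 2 = 0 := by linarith
    exact pow_eq_zero_iff (two_ne_zero) |>.1 this
  rw [e, add_comm, sr_scalar_add_sq_zero γ (N := θ • rk u k)] at h2
  · exact norm_eq_zero.1 h2
  · ext z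
    simp [hku]

/-- CD14, dimension at least three. -/
theorem main_cd_three_of (hσ : σ = 1 ∨ σ = -1) (hX : Dim3 X) (hY : Dim3 Y)
    {φ : (X →L[ℂ] X) → (Y →L[ℂ] Y)}
    (h : ∀ T S, sr (bra σ (φ T) (φ S)) = sr (bra σ T S))
    (cd_flag_surj : ∀ {u : Y} {k : Y →L[ℂ] ℂ}, u ≠ 0 → k ≠ 0 → k u = 0 →
      ∃ (x : X) (f : X →L[ℂ] ℂ) (c γ : ℂ), x ≠ 0 ∧ f ≠ 0 ∧ f x = 0 ∧ c ≠ 0 ∧
        φ (rk x f) = c • rk u k + γ • (1 : Y →L[ℂ] Y))
    (cd_orient :
      (∃ (π : X → Y) (κ : (X →L[ℂ] ℂ) → (Y →L[ℂ] ℂ)),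
        (∀ x, x ≠ 0 → π x ≠ 0) ∧ (∀ f, f ≠ 0 → κ f ≠ 0) ∧
        ∀ x f, x ≠ 0 → f ≠ 0 → f x = 0 → κ f (π x) = 0 ∧
          ∃ c γ : ℂ, c ≠ 0 ∧ (σ = 1 → γ = 0) ∧
            φ (rk x f) = c • rk (π x) (κ f) + γ • (1 : Y →L[ℂ] Y)) ∨
      (∃ (π : (X →L[ℂ] ℂ) → Y) (κ : X → (Y →L[ℂ] ℂ)),
        (∀ f, f ≠ 0 → π f ≠ 0) ∧ (∀ x, x ≠ 0 → κ x ≠ 0) ∧
        ∀ x f, x ≠ 0 → f ≠ 0 → f x = 0 → κ x (π f) = 0 ∧
          ∃ c γ : ℂ, c ≠ 0 ∧ (σ = 1 → γ = 0) ∧
            φ (rk x f) = c • rk (π f) (κ x) + γ • (1 : Y →L[ℂ] Y))) :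
    ∃ c h : (X →L[ℂ] X) → ℂ, (∀ T, ‖c T‖ = 1) ∧ (σ = 1 → h = fun _ => 0) ∧
      (FormI c h φ ∨ FormII c h φ) := by
  have hYn : Nontrivial Y := hY.nontrivial
  have hne : ∀ P : Prop, ((-1 : ℂ) = 1 → P) := by
    intro P h'
    exact absurd h' (by norm_num)
  rcases cd_orient with ⟨π, κ, hπ, hκ, hfl⟩ | ⟨π, κ, hπ, hκ, hfl⟩
  · -- type I
    obtain ⟨A, hA, hbij, hA1, hA2⟩ := cd_extend (V := X) (W := X →L[ℂ] ℂ) hσ hX hY
      (goodPair_dual X).2 (Φ := fun x f => φ (rk x f)) (π := π) (κ := κ) hπ hκ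
      (fun v w hv hw hvw => hfl v w hv hw hvw)
      (by
        intro v w v' w' hvw
        have hvw' : w' v' = 0 := hvw
        change sr (bra σ (φ (rk v w)) (φ (rk v' w'))) = ‖w' v‖ * ‖w v'‖
        rw [h, sr_bra_flag hσ _ hvw', rk_apply, map_smul, norm_smul, mul_comm])
      (by
        intro u k hu hk hku
        obtain ⟨x, f, c, γ, hx, hf, hfx, hc, e⟩ := cd_flag_surj hu hk hku
        obtain ⟨-, c', γ', hc', -, e'⟩ := hfl x f hx hf hfx
        obtain ⟨p1, p2⟩ := rk_add_scalar_par hY hu hk (hπ x hx) hc hc' (e.symm.trans e')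
        obtain ⟨d, -, hd⟩ := p1.symm
        obtain ⟨d', -, hd'⟩ := p2.symm
        exact ⟨x, f, hx, hf, hfx, ⟨d, hd⟩, ⟨d', hd'⟩⟩)
    have hI : ∃ c h : (X →L[ℂ] X) → ℂ, (∀ T, ‖c T‖ = 1) ∧ FormI c h φ := by
      refine cd_typeI hσ h hA hbij (fun f => ?_) (fun k => ?_)
      · obtain ⟨k, hk1, hk2⟩ := hA1 f
        refine ⟨k, hk1, fun x hfx => ?_⟩
        obtain ⟨θ, γ, hθ, e⟩ := hk2 x
        refine ⟨θ, γ, hθ, ?_, e⟩
        rintro rfl
        have hku : k (A x) = 0 := by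
          have := hk1 x
          rw [← norm_eq_zero, this]
          change ‖f x‖ = 0
          rw [hfx, norm_zero]
        exact flag_scalar_zero h hfx hku e
      · exact hA2 k
    rcases hσ with rfl | rfl
    · obtain ⟨c, hc, hF⟩ := formI_kill hX h hI
      exact ⟨c, fun _ => 0, hc, fun _ => rfl, Or.inl hF⟩
    · obtain ⟨c, m, hc, hF⟩ := hI
      exact ⟨c, m, hc, hne _, Or.inl hF⟩
  · -- type II
    obtain ⟨A, hA, hbij, hA1, hA2⟩ := cd_extend (V := X →L[ℂ] ℂ) (W := X) hσ hX.dual hY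
      (goodPair_dual X).1 (Φ := fun f x => φ (rk x f)) (π := π) (κ := κ) hπ hκ
      (fun f x hf hx hfx => hfl x f hx hf hfx)
      (by
        intro f x f' x' hfx
        have hfx' : f' x' = 0 := hfx
        change sr (bra σ (φ (rk x f)) (φ (rk x' f'))) = ‖f x'‖ * ‖f' x‖
        rw [h, sr_bra_flag hσ _ hfx', rk_apply, map_smul, norm_smul])
      (by
        intro u k hu hk hku
        obtain ⟨x, f, c, γ, hx, hf, hfx, hc, e⟩ := cd_flag_surj hu hk hku
        obtain ⟨-, c', γ', hc', -, e'⟩ := hfl x f hx hf hfx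
        obtain ⟨p1, p2⟩ := rk_add_scalar_par hY hu hk (hπ f hf) hc hc' (e.symm.trans e')
        obtain ⟨d, -, hd⟩ := p1.symm
        obtain ⟨d', -, hd'⟩ := p2.symm
        exact ⟨f, x, hf, hx, hfx, ⟨d, hd⟩, ⟨d', hd'⟩⟩)
    have hR : Refl X := refl_of_bij hA hbij hA2
    choose pre hpre using fun S : (X →L[ℂ] ℂ) →L[ℂ] (X →L[ℂ] ℂ) => dmap_surj hR S
    set ψ : ((X →L[ℂ] ℂ) →L[ℂ] (X →L[ℂ] ℂ)) → (Y →L[ℂ] Y) := fun S => φ (pre S) with hψdef
    have hψ : ∀ T, ψ (dmap T) = φ T := by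
      intro T
      rw [hψdef]
      change φ (pre (dmap T)) = φ T
      rw [dmap_inj (hpre (dmap T))]
    have hψh : ∀ T S, sr (bra σ (ψ T) (ψ S)) = sr (bra σ T S) := by
      intro T S
      obtain ⟨T, rfl⟩ := dmap_surj hR T
      obtain ⟨S, rfl⟩ := dmap_surj hR S
      have e1 : bra σ (dmap T) (dmap S) = dmap (bra σ S T) := by
        rw [bra, bra, dmap_add, dmap_smul, dmap_mul, dmap_mul]
      rw [hψ, hψ, h, e1, sr_dmap, sr_bra_comm hσ]
    have hF : ∀ F : (X →L[ℂ] ℂ) →L[ℂ] ℂ, ∃ x : X, F = ev x := by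
      intro F
      obtain ⟨x, hx⟩ := hR F
      exact ⟨x, ContinuousLinearMap.ext hx⟩
    have hI : ∃ c h : ((X →L[ℂ] ℂ) →L[ℂ] (X →L[ℂ] ℂ)) → ℂ, (∀ T, ‖c T‖ = 1) ∧ FormI c h ψ := by
      refine cd_typeI hσ hψh hA hbij (fun F => ?_) (fun k => ?_)
      · obtain ⟨x, rfl⟩ := hF F
        obtain ⟨k, hk1, hk2⟩ := hA1 x
        refine ⟨k, hk1, fun f hfx => ?_⟩
        have hfx' : f x = 0 := hfx
        obtain ⟨θ, γ, hθ, e⟩ := hk2 f
        refine ⟨θ, γ, hθ, ?_, ?_⟩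
        · rintro rfl
          have hku : k (A f) = 0 := by
            have := hk1 f
            rw [← norm_eq_zero, this]
            change ‖f x‖ = 0
            rw [hfx', norm_zero]
          exact flag_scalar_zero h hfx' hku e
        · rw [← dmap_rk, hψ]
          exact e
      · obtain ⟨x, hx⟩ := hA2 k
        exact ⟨ev x, hx⟩
    rcases hσ with rfl | rfl
    · obtain ⟨c, hc, hF'⟩ := formI_kill hX.dual hψh hI
      exact ⟨fun T => c (dmap T), fun _ => 0, fun T => hc _, fun _ => rfl,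
        Or.inr (formII_of_formI hR hψ hF')⟩
    · obtain ⟨c, m, hc, hF'⟩ := hI
      exact ⟨fun T => c (dmap T), fun T => m (dmap T), fun T => hc _, hne _,
        Or.inr (formII_of_formI hR hψ hF')⟩

/-- CD17: dimension one. -/
theorem main_cd_one (hσ : σ = 1 ∨ σ = -1) [Nontrivial X] [Nontrivial Y] (hX : ¬ Dim2 X)
    (hY : ¬ Dim2 Y) {φ : (X →L[ℂ] X) → (Y →L[ℂ] Y)}
    (h : ∀ T S, sr (bra σ (φ T) (φ S)) = sr (bra σ T S)) :
    ∃ c h : (X →L[ℂ] X) → ℂ, (∀ T, ‖c T‖ = 1) ∧ (σ = 1 → h = fun _ => 0) ∧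
      (FormI c h φ ∨ FormII c h φ) := by
  obtain ⟨A⟩ := exists_equiv_one hX hY
  choose t ht using fun T : X →L[ℂ] X => scalar_of_not_dim2 hX T
  choose s hs using fun T : X →L[ℂ] X => scalar_of_not_dim2 hY (φ T)
  rcases hσ with rfl | rfl
  · have hts : ∀ T, ‖s T‖ = ‖t T‖ := by
      intro T
      have h1 := h T T
      rw [sr_bra_self, sr_bra_self, ht T, sr_scalar] at h1
      rw [← ht T, hs T, sr_scalar] at h1
      have h2 : ‖s T‖ ^ 2 = ‖t T‖ ^ 2 := by linarith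
      exact (pow_left_inj₀ (norm_nonneg _) (norm_nonneg _) two_ne_zero).1 h2
    refine ⟨fun T => if t T = 0 then 1 else s T / t T, fun _ => 0, fun T => ?_, fun _ => rfl,
      Or.inl (Or.inl ⟨A, fun T y => ?_⟩)⟩
    · dsimp only
      split_ifs with h0
      · exact norm_one
      · rw [norm_div, hts, div_self (norm_ne_zero_iff.2 h0)]
    · have e1 : A (T (A.symm y)) = t T • y := by
        conv_lhs => rw [ht T]
        simp
      rw [e1, zero_smul, add_zero, smul_smul]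
      conv_lhs => rw [hs T]
      rw [ContinuousLinearMap.smul_apply, ContinuousLinearMap.one_apply]
      congr 1
      dsimp only
      split_ifs with h0
      · have := hts T
        rw [h0, norm_zero, norm_eq_zero] at this
        rw [this, h0, mul_zero]
      · rw [div_mul_cancel₀ _ h0]
  · refine ⟨fun _ => 1, fun T => s T - t T, fun T => norm_one, fun h' => absurd h' (by norm_num),
      Or.inl (Or.inl ⟨A, fun T y => ?_⟩)⟩
    have e1 : A (T (A.symm y)) = t T • y := by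
      conv_lhs => rw [ht T]
      simp
    rw [e1, one_smul]
    conv_lhs => rw [hs T]
    rw [ContinuousLinearMap.smul_apply, ContinuousLinearMap.one_apply, sub_smul]
    abel

end cd

end PR
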