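import Pool.Agent.Helper40.PR.Defs2
import Pool.Agent.Helper54.PR.TK5
import Pool.Agent.Helper65.PR.TK4A

/-!
# Duality toolkit (pieces PR-AB8, PR-CD14 of `MP_339e9c_an`)

The Banach adjoint `dmap`, reflexivity, and bounded bijections which are linear or conjugate linear.
-/

namespace PR

open ContinuousLinearMap

section dmap

variable {X : Type*} [NormedAddCommGroup X] [NormedSpace ℂ X]

theorem dmap_apply (T : X →L[ℂ] X) (f : X →L[ℂ] ℂ) : dmap T f = f.comp T := rfl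

theorem dmap_apply_apply (T : X →L[ℂ] X) (f : X →L[ℂ] ℂ) (x : X) : dmap T f x = f (T x) := rfl

/-- separation of points -/
theorem eq_of_forall_dual {x y : X} (h : ∀ f : X →L[ℂ] ℂ, f x = f y) : x = y := by
  by_contra hne
  have hne' : ‖x - y‖ ≠ 0 := norm_ne_zero_iff.2 (sub_ne_zero.2 hne)
  obtain ⟨g, -, hg⟩ := exists_dual_vector ℂ (x - y) hne'
  rw [map_sub, h g, sub_self] at hg
  have : ((‖x - y‖ : ℝ) : ℂ) = 0 := hg.symm
  exact hne' (by exact_mod_cast this)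

theorem dmap_inj {T S : X →L[ℂ] X} (h : dmap T = dmap S) : T = S := by
  ext x
  refine eq_of_forall_dual fun f => ?_
  have := congrArg (fun D => D f x) h
  exact this

theorem dmap_mul (T S : X →L[ℂ] X) : dmap (T * S) = dmap S * dmap T := by
  ext f x
  rfl

theorem dmap_one : dmap (1 : X →L[ℂ] X) = 1 := by
  ext f x
  rfl

theorem dmap_pow (T : X →L[ℂ] X) (n : ℕ) : dmap (T ^ n) = dmap T ^ n := by
  induction n with
  | zero => simp [dmap_one]
  | succ n ih => rw [pow_succ', dmap_mul, ih, pow_succ]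

theorem dmap_add (T S : X →L[ℂ] X) : dmap (T + S) = dmap T + dmap S := by
  ext f x
  change f (T x + S x) = f (T x) + f (S x)
  exact map_add f _ _

theorem dmap_smul (c : ℂ) (T : X →L[ℂ] X) : dmap (c • T) = c • dmap T := by
  ext f x
  change f (c • T x) = c • f (T x)
  exact map_smul f _ _

/-- evaluation at `x` -/
noncomputable def ev (x : X) : (X →L[ℂ] ℂ) →L[ℂ] ℂ := NormedSpace.inclusionInDoubleDual ℂ X x

@[simp] theorem ev_apply (x : X) (f : X →L[ℂ] ℂ) : ev x f = f x := rfl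

theorem dmap_rk (x : X) (f : X →L[ℂ] ℂ) : dmap (rk x f) = rk f (ev x) := by
  ext g z
  change g (f z • x) = g x • f z
  rw [map_smul, smul_eq_mul, smul_eq_mul, mul_comm]

theorem dmap_surj (hR : Refl X) (S : (X →L[ℂ] ℂ) →L[ℂ] (X →L[ℂ] ℂ)) :
    ∃ T : X →L[ℂ] X, dmap T = S := by
  have h1 : ∀ x : X, ∃ y : X, ∀ f : X →L[ℂ] ℂ, S f x = f y := fun x =>
    hR ((ev x).comp S)
  choose t ht using h1
  have hadd : ∀ x y, t (x + y) = t x + t y := by
    intro x y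
    refine eq_of_forall_dual fun f => ?_
    rw [map_add, ← ht, ← ht, ← ht, map_add]
  have hsmul : ∀ (c : ℂ) x, t (c • x) = c • t x := by
    intro c x
    refine eq_of_forall_dual fun f => ?_
    rw [map_smul, ← ht, ← ht, map_smul]
  refine ⟨LinearMap.mkContinuous ⟨⟨t, hadd⟩, hsmul⟩ ‖S‖ ?_, ?_⟩
  · intro x
    change ‖t x‖ ≤ ‖S‖ * ‖x‖
    refine NormedSpace.norm_le_dual_bound ℂ (t x) (by positivity) fun f => ?_
    rw [← ht]
    calc ‖S f x‖ ≤ ‖S f‖ * ‖x‖ := (S f).le_opNorm x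
      _ ≤ (‖S‖ * ‖f‖) * ‖x‖ := by gcongr; exact S.le_opNorm f
      _ = ‖S‖ * ‖x‖ * ‖f‖ := by ring
  · ext f x
    exact (ht x f).symm

end dmap

section sr

variable {X : Type*} [NormedAddCommGroup X] [NormedSpace ℂ X] [CompleteSpace X]

theorem sr_dmap (T : X →L[ℂ] X) : sr (dmap T) = sr T := sr_dual T (dmap T) fun _ => rfl

end sr

section forms

variable {X : Type*} [NormedAddCommGroup X] [NormedSpace ℂ X]
variable {Y : Type*} [NormedAddCommGroup Y] [NormedSpace ℂ Y]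

theorem formII_of_formI (hR : Refl X) {φ : (X →L[ℂ] X) → (Y →L[ℂ] Y)}
    {ψ : ((X →L[ℂ] ℂ) →L[ℂ] (X →L[ℂ] ℂ)) → (Y →L[ℂ] Y)} (hψ : ∀ T, ψ (dmap T) = φ T)
    {c h : ((X →L[ℂ] ℂ) →L[ℂ] (X →L[ℂ] ℂ)) → ℂ} (hF : FormI c h ψ) :
    FormII (fun T => c (dmap T)) (fun T => h (dmap T)) φ := by
  refine ⟨hR, ?_⟩
  rcases hF with ⟨A, hA⟩ | ⟨A, hA⟩
  · left
    exact ⟨A, fun T y => by rw [← hψ, hA]; rfl⟩
  · right
    exact ⟨A, fun T y => by rw [← hψ, hA]; rfl⟩

end forms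

section bounded

variable {V : Type*} [NormedAddCommGroup V] [NormedSpace ℂ V]
variable {W : Type*} [NormedAddCommGroup W] [NormedSpace ℂ W]

theorem LinOrConj.add {V W : Type*} [AddCommGroup V] [Module ℂ V] [AddCommGroup W] [Module ℂ W]
    {A : V → W} (hA : LinOrConj A) (v w : V) : A (v + w) = A v + A w := by
  rcases hA with ⟨L, hL⟩ | ⟨L, hL⟩ <;> simp [hL]

theorem LinOrConj.map_zero {V W : Type*} [AddCommGroup V] [Module ℂ V] [AddCommGroup W]
    [Module ℂ W] {A : V → W} (hA : LinOrConj A) : A 0 = 0 := by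
  rcases hA with ⟨L, hL⟩ | ⟨L, hL⟩ <;> simp [hL]

theorem LinOrConj.map_smul {V W : Type*} [AddCommGroup V] [Module ℂ V] [AddCommGroup W]
    [Module ℂ W] {A : V → W} (hA : LinOrConj A) (c : ℂ) : ∃ c' : ℂ, ‖c'‖ = ‖c‖ ∧
      ∀ v, A (c • v) = c' • A v := by
  rcases hA with ⟨L, hL⟩ | ⟨L, hL⟩
  · exact ⟨c, rfl, fun v => by simp [hL]⟩
  · exact ⟨starRingEnd ℂ c, by simp, fun v => by rw [hL, hL, LinearMap.map_smulₛₗ]⟩

/-- uniform boundedness -/
theorem LinOrConj.bounded {A : V → W} (hA : LinOrConj A)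
    (hb : ∀ g : W →L[ℂ] ℂ, ∃ C : ℝ, ∀ v, ‖g (A v)‖ ≤ C * ‖v‖) : ∃ C : ℝ, ∀ v, ‖A v‖ ≤ C * ‖v‖ := by
  obtain ⟨C', hC'⟩ := banach_steinhaus
    (g := fun v : {v : V // ‖v‖ ≤ 1} => NormedSpace.inclusionInDoubleDual ℂ W (A v.1)) (by
      intro g
      obtain ⟨C, hC⟩ := hb g
      refine ⟨max C 0, fun v => ?_⟩
      change ‖g (A v.1)‖ ≤ _
      refine (hC v.1).trans ?_
      calc C * ‖(v : V)‖ ≤ max C 0 * ‖(v : V)‖ := by gcongr; exact le_max_left _ _
        _ ≤ max C 0 * 1 := by gcongr; exact v.2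
        _ = max C 0 := mul_one _)
  have hC'' : ∀ v : V, ‖v‖ ≤ 1 → ‖A v‖ ≤ C' := by
    intro v hv
    have h1 := hC' ⟨v, hv⟩
    have h2 : ‖NormedSpace.inclusionInDoubleDual ℂ W (A v)‖ = ‖A v‖ :=
      (NormedSpace.inclusionInDoubleDualLi ℂ (E := W)).norm_map (A v)
    rw [← h2]
    exact h1
  refine ⟨C', fun v => ?_⟩
  by_cases hv : v = 0
  · simp [hv, hA.map_zero]
  have hv' : (0 : ℝ) < ‖v‖ := norm_pos_iff.2 hv
  obtain ⟨c', hc', h1⟩ := hA.map_smul ((‖v‖⁻¹ : ℝ) : ℂ)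
  have h2 := hC'' (((‖v‖⁻¹ : ℝ) : ℂ) • v) (by
    rw [norm_smul, Complex.norm_real, norm_inv, norm_norm, inv_mul_cancel₀ hv'.ne'])
  rw [h1, norm_smul, hc', Complex.norm_real, norm_inv, norm_norm] at h2
  rw [inv_mul_le_iff₀ hv'] at h2
  linarith [mul_comm ‖v‖ C']

/-- a bijective, (conjugate) linear map which is weakly bounded is a homeomorphism -/
theorem LinOrConj.equiv [CompleteSpace V] [CompleteSpace W] {A : V → W} (hA : LinOrConj A)
    (hbij : Function.Bijective A)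
    (hb : ∀ g : W →L[ℂ] ℂ, ∃ C : ℝ, ∀ v, ‖g (A v)‖ ≤ C * ‖v‖) :
    (∃ E : V ≃L[ℂ] W, ∀ v, E v = A v) ∨ (∃ E : V ≃SL[starRingEnd ℂ] W, ∀ v, E v = A v) := by
  obtain ⟨C, hC⟩ := hA.bounded hb
  rcases hA with ⟨L, hL⟩ | ⟨L, hL⟩
  · left
    have hbij' : Function.Bijective L := by
      have : A = L := funext hL
      rwa [this] at hbij
    set f : V →L[ℂ] W := L.mkContinuous C (fun v => by rw [← hL]; exact hC v) with hf
    refine ⟨ContinuousLinearEquiv.ofBijective f (LinearMap.ker_eq_bot.2 hbij'.1)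
      (LinearMap.range_eq_top.2 hbij'.2), fun v => ?_⟩
    rw [hL]
    rfl
  · right
    have hbij' : Function.Bijective L := by
      have : A = L := funext hL
      rwa [this] at hbij
    set f : V →SL[starRingEnd ℂ] W := L.mkContinuous C (fun v => by rw [← hL]; exact hC v) with hf
    refine ⟨ContinuousLinearEquiv.ofBijective f (LinearMap.ker_eq_bot.2 hbij'.1)
      (LinearMap.range_eq_top.2 hbij'.2), fun v => ?_⟩
    rw [hL]
    rfl

end bounded

section refl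

variable {X : Type*} [NormedAddCommGroup X] [NormedSpace ℂ X]
variable {Y : Type*} [NormedAddCommGroup Y] [NormedSpace ℂ Y] [CompleteSpace Y]

/-- complex conjugate of a functional composed with a conjugate linear map -/
noncomputable def conjComp {V W : Type*} [NormedAddCommGroup V] [NormedSpace ℂ V]
    [NormedAddCommGroup W] [NormedSpace ℂ W] (F : V →L[ℂ] ℂ) (B : W →SL[starRingEnd ℂ] V) :
    W →L[ℂ] ℂ where
  toFun w := starRingEnd ℂ (F (B w))
  map_add' v w := by simp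
  map_smul' c w := by simp
  cont := Complex.continuous_conj.comp (F.continuous.comp B.continuous)

@[simp] theorem conjComp_apply {V W : Type*} [NormedAddCommGroup V] [NormedSpace ℂ V]
    [NormedAddCommGroup W] [NormedSpace ℂ W] (F : V →L[ℂ] ℂ) (B : W →SL[starRingEnd ℂ] V) (w : W) :
    conjComp F B w = starRingEnd ℂ (F (B w)) := rfl

/-- reflexivity from a bijection `A : X* → Y` for which every functional of `Y` is, in modulus,
the evaluation at a point of `X` -/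
theorem refl_of_bij {A : (X →L[ℂ] ℂ) → Y} (hA : LinOrConj A) (hbij : Function.Bijective A)
    (hk : ∀ g : Y →L[ℂ] ℂ, ∃ z : X, ∀ f : X →L[ℂ] ℂ, ‖g (A f)‖ = ‖f z‖) : Refl X := by
  have hb : ∀ g : Y →L[ℂ] ℂ, ∃ C : ℝ, ∀ f : X →L[ℂ] ℂ, ‖g (A f)‖ ≤ C * ‖f‖ := by
    intro g
    obtain ⟨z, hz⟩ := hk g
    refine ⟨‖z‖, fun f => ?_⟩
    rw [hz f, mul_comm]
    exact f.le_opNorm z
  intro F
  obtain ⟨z, hz⟩ : ∃ z : X, ∀ f : X →L[ℂ] ℂ, ‖F f‖ = ‖f z‖ := by
    rcases hA.equiv hbij hb with ⟨E, hE⟩ | ⟨E, hE⟩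
    · obtain ⟨z, hz⟩ := hk (F.comp (E.symm : Y →L[ℂ] (X →L[ℂ] ℂ)))
      refine ⟨z, fun f => ?_⟩
      rw [← hz f, ← hE]
      simp
    · obtain ⟨z, hz⟩ := hk (conjComp F (E.symm : Y →SL[starRingEnd ℂ] (X →L[ℂ] ℂ)))
      refine ⟨z, fun f => ?_⟩
      rw [← hz f, ← hE]
      simp
  have hspan : F ∈ Submodule.span ℂ (Set.range ![ev z]) := by
    refine mem_span_of_ker fun f hf => ?_
    have h1 : f z = 0 := hf 0
    rw [← norm_eq_zero, hz f, h1, norm_zero]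
  rw [Matrix.range_cons, Matrix.range_empty, Set.union_empty, Submodule.mem_span_singleton] at hspan
  obtain ⟨c, hc⟩ := hspan
  refine ⟨c • z, fun f => ?_⟩
  rw [← hc]
  simp

end refl

end PR
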