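import Pool.Agent.Helper54.PR.E9A
import Pool.Agent.Helper76.PR.E11C
import Pool.Agent.Helper2.PR.FormE
import Pool.Agent.Helper2.PR.E11D
import Pool.Agent.Helper44.PR.E6F
import Pool.Agent.Helper59.PR.E6W
import Pool.Agent.Helper8.PR.E4
import Pool.Agent.Helper28.PR.E1
import Pool.Agent.Helper43.PR.E10A
import Pool.Agent.Helper24.PR.E10B
import Pool.Agent.Helper60.PR.E10C
import Pool.Agent.Helper65.PR.TK4A
import Pool.Agent.Helper65.PR.CD15

/-!
# The skew Lie product: assembly (piece PR-E12 of `MP_339e9c_an`)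
-/

namespace PR

open ContinuousLinearMap InnerProductSpace Complex

open scoped ComplexConjugate

section e

variable {H : Type*} [NormedAddCommGroup H] [InnerProductSpace ℂ H] [CompleteSpace H]
variable {K : Type*} [NormedAddCommGroup K] [InnerProductSpace ℂ K] [CompleteSpace K]

namespace E12

/-- final step for `φ T = ± T†` -/
theorem finish {φ : (H →L[ℂ] H) → (H →L[ℂ] H)} {T : H →L[ℂ] H}
    (hfirst : ∀ S, sr (skb (φ T) S) = sr (skb T S)) (hn : T * adjoint T = adjoint T * T)
    (h : φ T = adjoint T ∨ φ T = -adjoint T) :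
    (φ T = T ∨ φ T = -T) ∨ (Special T ∧ (φ T = adjoint T ∨ φ T = -adjoint T)) := by
  have h1 : ∀ S, sr (skb (adjoint T) S) = sr (skb T S) := by
    intro S
    rcases h with h | h
    · rw [← hfirst S, h]
    · rw [← hfirst S, h, e_neg_left]
  rcases special_of_test hn h1 with h2 | h2
  · left
    rw [h2] at h
    exact h
  · exact Or.inr ⟨h2, h⟩

/-- conjugation by an isometry preserves the test -/
theorem theta_lin (U : H ≃ₗᵢ[ℂ] K) (A B : H →L[ℂ] H) :
    sr (skb ((U.toContinuousLinearEquiv : H →L[ℂ] K).comp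
      (A.comp (U.symm.toContinuousLinearEquiv : K →L[ℂ] H)))
      ((U.toContinuousLinearEquiv : H →L[ℂ] K).comp
      (B.comp (U.symm.toContinuousLinearEquiv : K →L[ℂ] H)))) = sr (skb A B) := by
  have hadj : adjoint ((U.toContinuousLinearEquiv : H →L[ℂ] K).comp
      (A.comp (U.symm.toContinuousLinearEquiv : K →L[ℂ] H))) =
      (U.toContinuousLinearEquiv : H →L[ℂ] K).comp
      ((adjoint A).comp (U.symm.toContinuousLinearEquiv : K →L[ℂ] H)) := by
    symm
    rw [eq_adjoint_iff]
    intro x y
    obtain ⟨x, rfl⟩ := U.surjective x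
    obtain ⟨y, rfl⟩ := U.surjective y
    simp [adjoint_inner_left]
  refine sr_conj U.toContinuousLinearEquiv (skb A B) _ fun x => ?_
  simp only [skb, hadj]
  simp

/-- conjugation by a conjugate linear isometry preserves the test -/
theorem theta_conj (U : H ≃ₛₗᵢ[starRingEnd ℂ] K) (A B : H →L[ℂ] H) :
    sr (skb ((U.toContinuousLinearEquiv : H →SL[starRingEnd ℂ] K).comp
      (A.comp (U.symm.toContinuousLinearEquiv : K →SL[starRingEnd ℂ] H)))
      ((U.toContinuousLinearEquiv : H →SL[starRingEnd ℂ] K).comp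
      (B.comp (U.symm.toContinuousLinearEquiv : K →SL[starRingEnd ℂ] H)))) = sr (skb A B) := by
  have hadj : adjoint ((U.toContinuousLinearEquiv : H →SL[starRingEnd ℂ] K).comp
      (A.comp (U.symm.toContinuousLinearEquiv : K →SL[starRingEnd ℂ] H))) =
      (U.toContinuousLinearEquiv : H →SL[starRingEnd ℂ] K).comp
      ((adjoint A).comp (U.symm.toContinuousLinearEquiv : K →SL[starRingEnd ℂ] H)) := by
    symm
    rw [eq_adjoint_iff]
    intro x y
    obtain ⟨x, rfl⟩ := U.surjective x
    obtain ⟨y, rfl⟩ := U.surjective y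
    simp [adjoint_inner_left, inner_conj_iso]
  refine sr_conj_star U.toContinuousLinearEquiv (skb A B) _ fun x => ?_
  simp only [skb, hadj]
  simp

theorem conj_mul_self {θ : ℂ} (hθ : ‖θ‖ = 1) : conj θ * θ = 1 := by
  rw [mul_comm, Complex.mul_conj, Complex.normSq_eq_norm_sq, hθ]
  norm_num

theorem finrank_one {Z : Type*} [NormedAddCommGroup Z] [NormedSpace ℂ Z] [Nontrivial Z]
    (hZ : ¬ Dim2 Z) : Module.finrank ℂ Z = 1 := by
  obtain ⟨v, hv⟩ := exists_ne (0 : Z)
  refine finrank_eq_one v hv fun w => ?_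
  by_contra hw
  push Not at hw
  exact hZ ⟨![v, w], (LinearIndependent.pair_iff' hv).2 hw⟩

theorem special_scalar [Nontrivial H] (z : ℂ) : Special (z • (1 : H →L[ℂ] H)) := by
  have hadj : adjoint (z • (1 : H →L[ℂ] H)) = conj z • (1 : H →L[ℂ] H) := by
    rw [map_smulₛₗ]
    congr 1
    exact ContinuousLinearMap.adjoint_id
  refine ⟨?_, -2 * z.re, 1, 0, ?_, ?_⟩
  · rw [hadj]
    simp [smul_smul, mul_comm]
  · intro h
    have := congrArg (fun t : ℝ × ℝ × ℝ => t.2.1) h
    simp at this
  · rw [hadj]
    have : ((-2 * z.re : ℝ) : ℂ) + (z + conj z) = 0 := by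
      rw [Complex.add_conj]
      push_cast
      ring
    rw [Complex.ofReal_one, one_smul, Complex.ofReal_zero, zero_smul, add_zero, ← add_smul,
      ← add_smul, this, zero_smul]

end E12

open E12

/-- E12, normalised preservers. -/
theorem main_e_norm (hH : Dim2 H) {φ : (H →L[ℂ] H) → (H →L[ℂ] H)} (hφ : NormE φ) (T : H →L[ℂ] H) :
    (φ T = T ∨ φ T = -T) ∨ (Special T ∧ (φ T = adjoint T ∨ φ T = -adjoint T)) := by
  have hfirst := e_first hH hφ T
  obtain ⟨η, hη, h | h⟩ := e_second hH hφ T
  · have h1 : ∀ S, sr (skb (η • T) S) = sr (skb T S) := fun S => by rw [← h]; exact hfirst S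
    rcases first_slot_same hη h1 with h2 | h2 | h2 | h2
    · exact Or.inl (Or.inl (h.trans h2))
    · exact Or.inl (Or.inr (h.trans h2))
    · refine finish hfirst ?_ (Or.inl (h.trans h2))
      rw [← h2, smul_mul_assoc, mul_smul_comm]
    · refine finish hfirst ?_ (Or.inr (h.trans h2))
      have h3 : adjoint T = -(η • T) := by rw [h2, neg_neg]
      rw [h3, neg_mul, mul_neg, smul_mul_assoc, mul_smul_comm]
  · have h1 : ∀ S, sr (skb (η • adjoint T) S) = sr (skb T S) := fun S => by
      rw [← h]; exact hfirst S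
    have hn : T * adjoint T = adjoint T * T := by
      by_cases h3 : Dim3 H
      · exact normal_of_first h3 hη h1
      · exact normal_of_first_two h3 hη h1
    rcases first_slot_normal hn hη h1 with h2 | h2 | h2 | h2
    · exact Or.inl (Or.inl (h.trans h2))
    · exact Or.inl (Or.inr (h.trans h2))
    · exact finish hfirst hn (Or.inl (h.trans h2))
    · exact finish hfirst hn (Or.inr (h.trans h2))

namespace E12

/-- dimension one -/
theorem dim_one [Nontrivial H] [Nontrivial K] {φ : (H →L[ℂ] H) → (K →L[ℂ] K)} (hφ : PresE φ)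
    (hH : ¬ Dim2 H) : FormE φ := by
  have hK : ¬ Dim2 K := fun h => hH ((e_dim2 hφ).2 h)
  have h1 := finrank_one hH
  have h2 := finrank_one hK
  have : FiniteDimensional ℂ H := FiniteDimensional.of_finrank_pos (by rw [h1]; norm_num)
  have : FiniteDimensional ℂ K := FiniteDimensional.of_finrank_pos (by rw [h2]; norm_num)
  let U : H ≃ₗᵢ[ℂ] K := (stdOrthonormalBasis ℂ H).equiv (stdOrthonormalBasis ℂ K)
    (finCongr (h1.trans h2.symm))
  choose z hz using fun T : H →L[ℂ] H => scalar_of_not_dim2 hH T
  choose w hw using fun T : H →L[ℂ] H => scalar_of_not_dim2 hK (φ T)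
  have key : ∀ T S, |(w T).im| * ‖w S‖ = |(z T).im| * ‖z S‖ := by
    intro T S
    have h3 := hφ.pres T S
    rw [hw T, hw S, e_scalar_left, sr_scalar] at h3
    conv_rhs at h3 => rw [hz T, hz S]
    rw [e_scalar_left, sr_scalar] at h3
    linarith
  have hzs : ∀ c : ℂ, z (c • (1 : H →L[ℂ] H)) = c := by
    intro c
    obtain ⟨v, hv⟩ := exists_ne (0 : H)
    have h3 := congrArg (fun T => T v) (hz (c • (1 : H →L[ℂ] H)))
    have h4 : c • v = z (c • (1 : H →L[ℂ] H)) • v := h3
    have h5 : (c - z (c • (1 : H →L[ℂ] H))) • v = 0 := by rw [sub_smul, ← h4, sub_self]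
    rcases smul_eq_zero.1 h5 with h6 | h6
    · exact (sub_eq_zero.1 h6).symm
    · exact absurd h6 hv
  have hws : ∀ (T : H →L[ℂ] H) (c : ℂ), φ T = c • (1 : K →L[ℂ] K) → w T = c := by
    intro T c hc
    obtain ⟨v, hv⟩ := exists_ne (0 : K)
    have h3 := congrArg (fun T => T v) ((hw T).symm.trans hc)
    have h4 : w T • v = c • v := h3
    have h5 : (w T - c) • v = 0 := by rw [sub_smul, h4, sub_self]
    rcases smul_eq_zero.1 h5 with h6 | h6
    · exact sub_eq_zero.1 h6
    · exact absurd h6 hv
  -- the constant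
  obtain ⟨T0, hT0⟩ := hφ.surj (I • (1 : K →L[ℂ] K))
  have hw0 : w T0 = I := hws T0 I hT0
  set Ti : H →L[ℂ] H := I • (1 : H →L[ℂ] H) with hTi
  have hzi : z Ti = I := hzs I
  set k : ℝ := |(z T0).im| with hk
  have hk1 : ∀ S, ‖w S‖ = k * ‖z S‖ := by
    intro S
    have := key T0 S
    rwa [hw0, Complex.I_im, abs_one, one_mul] at this
  have hk2 : ∀ S, |(w Ti).im| * ‖w S‖ = ‖z S‖ := by
    intro S
    have := key Ti S
    rwa [hzi, Complex.I_im, abs_one, one_mul] at this
  have hk0 : 0 ≤ k := abs_nonneg _
  have hk3 : |(w Ti).im| * k = 1 := by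
    have := hk2 Ti
    rw [hk1, hzi, Complex.norm_I, mul_one] at this
    exact this
  have hk4 : |(w Ti).im| ≤ k := by
    have h3 := Complex.abs_im_le_norm (w Ti)
    rw [hk1 Ti, hzi, Complex.norm_I, mul_one] at h3
    exact h3
  have hk5 : k * k ≤ 1 := by
    have h3 := Complex.abs_im_le_norm (z T0)
    have h4 := hk1 T0
    rw [hw0, Complex.norm_I] at h4
    calc k * k ≤ k * ‖z T0‖ := mul_le_mul_of_nonneg_left h3 hk0
      _ = 1 := h4.symm
  have hk6 : k = 1 := by
    have h3 : 1 ≤ k * k := by
      rw [← hk3]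
      exact mul_le_mul_of_nonneg_right hk4 hk0
    nlinarith
  have hnorm : ∀ S, ‖w S‖ = ‖z S‖ := fun S => by rw [hk1, hk6, one_mul]
  have him : ∀ T, |(w T).im| = |(z T).im| := by
    intro T
    have h3 := key T Ti
    rw [hnorm, hzi, Complex.norm_I, mul_one, mul_one] at h3
    exact h3
  have hre : ∀ T, |(w T).re| = |(z T).re| := by
    intro T
    have h3 := congrArg (fun x : ℝ => x ^ 2) (hnorm T)
    simp only [← Complex.normSq_eq_norm_sq, Complex.normSq_apply] at h3
    have h4 := congrArg (fun x : ℝ => x ^ 2) (him T)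
    simp only [sq_abs] at h4
    rw [← sq_eq_sq_iff_abs_eq_abs]
    nlinarith
  left
  refine ⟨U, fun T => ?_⟩
  have hUT : ∀ y, U (T (U.symm y)) = z T • y := by
    intro y
    conv_lhs => rw [hz T]
    simp
  have hUT' : ∀ y, U (adjoint T (U.symm y)) = conj (z T) • y := by
    intro y
    have h3 : adjoint T = conj (z T) • (1 : H →L[ℂ] H) := by
      conv_lhs => rw [hz T]
      rw [map_smulₛₗ]
      congr 1
      exact ContinuousLinearMap.adjoint_id
    rw [h3]
    simp
  have hφT : ∀ y, φ T y = w T • y := by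
    intro y
    conv_lhs => rw [hw T]
    simp
  have hsp : Special T := by
    rw [hz T]
    exact special_scalar _
  rcases (abs_eq_abs.1 (hre T)) with h3 | h3 <;> rcases (abs_eq_abs.1 (him T)) with h4 | h4
  · refine ⟨1, Or.inl rfl, Or.inl fun y => ?_⟩
    have : w T = z T := Complex.ext h3 h4
    rw [hφT, hUT, this, one_smul]
  · refine ⟨1, Or.inl rfl, Or.inr ⟨hsp, fun y => ?_⟩⟩
    have : w T = conj (z T) := Complex.ext (by simpa using h3) (by simpa using h4)
    rw [hφT, hUT', this, one_smul]
  · refine ⟨-1, Or.inr rfl, Or.inr ⟨hsp, fun y => ?_⟩⟩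
    have : w T = -conj (z T) := Complex.ext (by simpa using h3) (by simpa using h4)
    rw [hφT, hUT', this, neg_smul, neg_smul, one_smul]
  · refine ⟨-1, Or.inr rfl, Or.inl fun y => ?_⟩
    have : w T = -z T := Complex.ext (by simpa using h3) (by simpa using h4)
    rw [hφT, hUT, this, neg_smul, neg_smul, one_smul]

end E12

/-- E12. -/
theorem main_e [Nontrivial H] [Nontrivial K] {φ : (H →L[ℂ] H) → (K →L[ℂ] K)} (hφ : PresE φ) :
    FormE φ := by
  by_cases hH : Dim2 H
  · obtain ⟨π, h1, h2, h3⟩ := e_rays hφ hH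
    obtain ⟨hP, hiP, h4⟩ := e_iP hφ hH h1 h2 h3
    rcases e_wigner hH (fun x hx => (h1 x hx).1) h2 h4 with ⟨U, hU⟩ | ⟨U, hU⟩
    · left
      set ψ : (H →L[ℂ] H) → (H →L[ℂ] H) := fun T =>
        (U.symm.toContinuousLinearEquiv : K →L[ℂ] H).comp
          ((φ T).comp (U.toContinuousLinearEquiv : H →L[ℂ] K)) with hψ
      have hψa : ∀ T x, ψ T x = U.symm (φ T (U x)) := fun T x => rfl
      have hθψ : ∀ T, (U.toContinuousLinearEquiv : H →L[ℂ] K).comp
          ((ψ T).comp (U.symm.toContinuousLinearEquiv : K →L[ℂ] H)) = φ T := by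
        intro T
        ext y
        change U (U.symm (φ T (U (U.symm y)))) = φ T y
        rw [U.apply_symm_apply, U.apply_symm_apply]
      have hpo : ∀ x : H, ‖x‖ = 1 → ∀ z : H, po (π x) (π x) (U z) = U (po x x z) := by
        intro x hx z
        obtain ⟨θ, hθ, e⟩ := hU x hx
        rw [po_apply, po_apply, e, inner_smul_left, U.inner_map_map, map_smul, smul_smul]
        congr 1
        linear_combination (inner ℂ x z) * conj_mul_self hθ
      have hnorm : NormE ψ := by
        refine ⟨⟨?_, ?_⟩, ?_, ?_⟩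
        · intro Z
          obtain ⟨T, hT⟩ := hφ.surj ((U.toContinuousLinearEquiv : H →L[ℂ] K).comp
            (Z.comp (U.symm.toContinuousLinearEquiv : K →L[ℂ] H)))
          refine ⟨T, ?_⟩
          ext x
          rw [hψa, hT]
          change U.symm (U (Z (U.symm (U x)))) = Z x
          rw [U.symm_apply_apply, U.symm_apply_apply]
        · intro T S
          rw [← theta_lin U, hθψ, hθψ, hφ.pres]
        · intro x hx
          rcases hP x hx with h | h
          · left
            ext z
            rw [hψa, h, hpo x hx, U.symm_apply_apply]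
          · right
            ext z
            rw [hψa, h]
            change U.symm (-(po (π x) (π x) (U z))) = -(po x x z)
            rw [hpo x hx, ← map_neg, U.symm_apply_apply]
        · intro x hx
          rcases hiP x hx with h | h
          · left
            ext z
            rw [hψa, h]
            change U.symm (I • (po (π x) (π x) (U z))) = I • (po x x z)
            rw [hpo x hx, ← map_smul, U.symm_apply_apply]
          · right
            ext z
            rw [hψa, h]
            change U.symm (-(I • (po (π x) (π x) (U z)))) = -(I • (po x x z))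
            rw [hpo x hx, ← map_smul, ← map_neg, U.symm_apply_apply]
      refine ⟨U, fun T => ?_⟩
      have hφT : ∀ y, φ T y = U (ψ T (U.symm y)) := by
        intro y
        rw [hψa, U.apply_symm_apply, U.apply_symm_apply]
      rcases main_e_norm hH hnorm T with (h | h) | ⟨hsp, h | h⟩
      · exact ⟨1, Or.inl rfl, Or.inl fun y => by rw [hφT, h, one_smul]⟩
      · refine ⟨-1, Or.inr rfl, Or.inl fun y => ?_⟩
        rw [hφT, h, neg_smul, one_smul, ← map_neg]
        rfl
      · exact ⟨1, Or.inl rfl, Or.inr ⟨hsp, fun y => by rw [hφT, h, one_smul]⟩⟩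
      · refine ⟨-1, Or.inr rfl, Or.inr ⟨hsp, fun y => ?_⟩⟩
        have hnegU : ∀ v : H, U (-v) = -U v := fun v => map_neg U v
        rw [hφT, h, neg_smul, one_smul, ← hnegU]
        rfl
    · right
      set ψ : (H →L[ℂ] H) → (H →L[ℂ] H) := fun T =>
        (U.symm.toContinuousLinearEquiv : K →SL[starRingEnd ℂ] H).comp
          ((φ T).comp (U.toContinuousLinearEquiv : H →SL[starRingEnd ℂ] K)) with hψ
      have hψa : ∀ T x, ψ T x = U.symm (φ T (U x)) := fun T x => rfl
      have hθψ : ∀ T, (U.toContinuousLinearEquiv : H →SL[starRingEnd ℂ] K).comp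
          ((ψ T).comp (U.symm.toContinuousLinearEquiv : K →SL[starRingEnd ℂ] H)) = φ T := by
        intro T
        ext y
        change U (U.symm (φ T (U (U.symm y)))) = φ T y
        rw [U.apply_symm_apply, U.apply_symm_apply]
      have hpo : ∀ x : H, ‖x‖ = 1 → ∀ z : H, po (π x) (π x) (U z) = U (po x x z) := by
        intro x hx z
        obtain ⟨θ, hθ, e⟩ := hU x hx
        rw [po_apply, po_apply, e, inner_smul_left, inner_conj_iso, map_smulₛₗ, smul_smul]
        congr 1
        linear_combination (conj (inner ℂ x z)) * conj_mul_self hθ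
      have hneg : ∀ v : K, U.symm (-v) = -U.symm v := fun v => map_neg U.symm v
      have hnegU : ∀ v : H, U (-v) = -U v := fun v => map_neg U v
      have hnorm : NormE ψ := by
        refine ⟨⟨?_, ?_⟩, ?_, ?_⟩
        · intro Z
          obtain ⟨T, hT⟩ := hφ.surj ((U.toContinuousLinearEquiv : H →SL[starRingEnd ℂ] K).comp
            (Z.comp (U.symm.toContinuousLinearEquiv : K →SL[starRingEnd ℂ] H)))
          refine ⟨T, ?_⟩
          ext x
          rw [hψa, hT]
          change U.symm (U (Z (U.symm (U x)))) = Z x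
          rw [U.symm_apply_apply, U.symm_apply_apply]
        · intro T S
          rw [← theta_conj U, hθψ, hθψ, hφ.pres]
        · intro x hx
          rcases hP x hx with h | h
          · left
            ext z
            rw [hψa, h, hpo x hx, U.symm_apply_apply]
          · right
            ext z
            rw [hψa, h]
            change U.symm (-(po (π x) (π x) (U z))) = -(po x x z)
            rw [hpo x hx, hneg, U.symm_apply_apply]
        · intro x hx
          have hI : ∀ v : H, U.symm (I • U v) = -(I • v) := by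
            intro v
            have h5 : U (-(I • v)) = I • U v := by
              rw [hnegU, map_smulₛₗ, Complex.conj_I, neg_smul, neg_neg]
            rw [← h5, U.symm_apply_apply]
          rcases hiP x hx with h | h
          · right
            ext z
            rw [hψa, h]
            change U.symm (I • (po (π x) (π x) (U z))) = -(I • (po x x z))
            rw [hpo x hx, hI]
          · left
            ext z
            rw [hψa, h]
            change U.symm (-(I • (po (π x) (π x) (U z)))) = I • (po x x z)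
            rw [hpo x hx, hneg, hI, neg_neg]
      refine ⟨U, fun T => ?_⟩
      have hφT : ∀ y, φ T y = U (ψ T (U.symm y)) := by
        intro y
        rw [hψa, U.apply_symm_apply, U.apply_symm_apply]
      rcases main_e_norm hH hnorm T with (h | h) | ⟨hsp, h | h⟩
      · exact ⟨1, Or.inl rfl, Or.inl fun y => by rw [hφT, h, one_smul]⟩
      · refine ⟨-1, Or.inr rfl, Or.inl fun y => ?_⟩
        rw [hφT, h, neg_smul, one_smul, ← hnegU]
        rfl
      · exact ⟨1, Or.inl rfl, Or.inr ⟨hsp, fun y => by rw [hφT, h, one_smul]⟩⟩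
      · refine ⟨-1, Or.inr rfl, Or.inr ⟨hsp, fun y => ?_⟩⟩
        rw [hφT, h, neg_smul, one_smul, ← hnegU]
        rfl
  · exact E12.dim_one hφ hH

end e

end PR
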