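import Pool.Agent.Helper67.PR.Dual

/-!
# Parallel vectors and stars (pieces PR-AB8, PR-CD14 of `MP_339e9c_an`)
-/

namespace PR

open ContinuousLinearMap

namespace H67

section par

variable {V : Type*} [AddCommGroup V] [Module ℂ V]

/-- parallel vectors (used for nonzero ones) -/
def Par (x y : V) : Prop := ∃ c : ℂ, c ≠ 0 ∧ y = c • x

theorem Par.refl (x : V) : Par x x := ⟨1, one_ne_zero, (one_smul _ _).symm⟩

theorem Par.symm {x y : V} (h : Par x y) : Par y x := by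
  obtain ⟨c, hc, rfl⟩ := h
  exact ⟨c⁻¹, inv_ne_zero hc, by rw [smul_smul, inv_mul_cancel₀ hc, one_smul]⟩

theorem Par.trans {x y z : V} (h : Par x y) (h' : Par y z) : Par x z := by
  obtain ⟨c, hc, rfl⟩ := h
  obtain ⟨d, hd, rfl⟩ := h'
  exact ⟨d * c, mul_ne_zero hd hc, by rw [smul_smul]⟩

theorem Par.ne_zero {x y : V} (h : Par x y) (hx : x ≠ 0) : y ≠ 0 := by
  obtain ⟨c, hc, rfl⟩ := h
  exact smul_ne_zero hc hx

theorem par_of_smul {x y : V} (hy : y ≠ 0) (h : ∃ c : ℂ, y = c • x) : Par x y := by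
  obtain ⟨c, rfl⟩ := h
  exact ⟨c, fun h0 => hy (by rw [h0, zero_smul]), rfl⟩

theorem li_iff_not_par {x y : V} (hx : x ≠ 0) (hy : y ≠ 0) :
    LinearIndependent ℂ ![x, y] ↔ ¬ Par x y := by
  rw [LinearIndependent.pair_iff' hx]
  constructor
  · rintro h ⟨c, -, hc⟩
    exact h c hc.symm
  · intro h a ha
    exact h (par_of_smul hy ⟨a, ha.symm⟩)

theorem li_ne_zero {x y : V} (h : LinearIndependent ℂ ![x, y]) : x ≠ 0 ∧ y ≠ 0 :=
  ⟨h.ne_zero 0, h.ne_zero 1⟩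

theorem li_symm {x y : V} (h : LinearIndependent ℂ ![x, y]) : LinearIndependent ℂ ![y, x] := by
  obtain ⟨hx, hy⟩ := li_ne_zero h
  rw [li_iff_not_par hx hy] at h
  rw [li_iff_not_par hy hx]
  exact fun h' => h h'.symm

theorem _root_.PR.Dim2.pair (hV : Dim2 V) : ∃ v w : V, LinearIndependent ℂ ![v, w] := by
  obtain ⟨v, hv⟩ := hV
  refine ⟨v 0, v 1, ?_⟩
  have : v = ![v 0, v 1] := by
    funext i
    fin_cases i <;> rfl
  rwa [← this]

/-- every nonzero vector has an independent partner -/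
theorem _root_.PR.Dim2.partner (hV : Dim2 V) {v : V} (hv : v ≠ 0) : ∃ w, LinearIndependent ℂ ![v, w] := by
  obtain ⟨a, b, hab⟩ := hV.pair
  obtain ⟨ha, hb⟩ := li_ne_zero hab
  by_cases h : Par v a
  · refine ⟨b, (li_iff_not_par hv hb).2 fun h' => ?_⟩
    exact (li_iff_not_par ha hb).1 hab (h.symm.trans h')
  · exact ⟨a, (li_iff_not_par hv ha).2 h⟩

theorem not_par_add {x y : V} (hx : x ≠ 0) (hy : y ≠ 0) (h : ¬ Par x y) :
    x + y ≠ 0 ∧ ¬ Par x (x + y) ∧ ¬ Par y (x + y) := by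
  have h' : ¬ Par y x := fun h' => h h'.symm
  refine ⟨fun h0 => ?_, ?_, ?_⟩
  · refine h (par_of_smul hy ⟨-1, ?_⟩)
    rw [neg_smul, one_smul]
    exact (neg_eq_of_add_eq_zero_right h0).symm
  · rintro ⟨c, -, hc⟩
    refine h (par_of_smul hy ⟨c - 1, ?_⟩)
    rw [sub_smul, one_smul, ← hc]
    abel
  · rintro ⟨c, -, hc⟩
    refine h' (par_of_smul hx ⟨c - 1, ?_⟩)
    rw [sub_smul, one_smul, ← hc]
    abel

/-- combinatorial heart of the orientation lemma -/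
theorem star_comb {Y K : Type*} [AddCommGroup Y] [Module ℂ Y] [AddCommGroup K] [Module ℂ K]
    {u : V → Y} {k : V → K}
    (h : ∀ v w, v ≠ 0 → w ≠ 0 → ¬ Par v w →
      (Par (u v) (u w) ∧ ¬ Par (k v) (k w)) ∨ (¬ Par (u v) (u w) ∧ Par (k v) (k w)))
    {v1 v2 : V} (h1 : v1 ≠ 0) (h2 : v2 ≠ 0) (h12 : ¬ Par v1 v2) (hu : ¬ Par (u v1) (u v2))
    (hk : Par (k v1) (k v2)) {v : V} (hv : v ≠ 0) : Par (k v1) (k v) := by
  have step : ∀ a b c : V, a ≠ 0 → b ≠ 0 → c ≠ 0 → ¬ Par a c → ¬ Par b c →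
      ¬ Par (u a) (u b) → Par (k a) (k b) →
      Par (k a) (k c) ∧ ¬ Par (u a) (u c) ∧ ¬ Par (u b) (u c) := by
    intro a b c ha hb hc hac hbc huab hkab
    rcases h a c ha hc hac with ⟨p1, p2⟩ | ⟨p1, p2⟩ <;>
    rcases h b c hb hc hbc with ⟨q1, q2⟩ | ⟨q1, q2⟩
    · exact absurd (p1.trans q1.symm) huab
    · exact absurd (hkab.trans q2) p2
    · exact absurd (hkab.symm.trans p2) q2
    · exact ⟨p2, p1, q1⟩
  by_cases hv1 : Par v1 v
  · obtain ⟨h3, h13, h23⟩ := not_par_add h1 h2 h12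
    obtain ⟨a1, a2, a3⟩ := step v1 v2 (v1 + v2) h1 h2 h3 h13 h23 hu hk
    have b1 : ¬ Par v2 v := fun h' => h12 (hv1.trans h'.symm)
    have b2 : ¬ Par (v1 + v2) v := fun h' => h13 (hv1.trans h'.symm)
    have := step v2 (v1 + v2) v h2 h3 hv b1 b2 a3 (hk.symm.trans a1)
    exact hk.trans this.1
  by_cases hv2 : Par v2 v
  · obtain ⟨h3, h13, h23⟩ := not_par_add h1 h2 h12
    obtain ⟨a1, a2, a3⟩ := step v1 v2 (v1 + v2) h1 h2 h3 h13 h23 hu hk
    have b2 : ¬ Par (v1 + v2) v := fun h' => h23 (hv2.trans h'.symm)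
    exact (step v1 (v1 + v2) v h1 h3 hv hv1 b2 a2 a1).1
  · exact (step v1 v2 v h1 h2 hv hv1 hv2 hu hk).1

end par

section rk

variable {Y : Type*} [NormedAddCommGroup Y] [NormedSpace ℂ Y]

theorem exists_ne_zero_of_ne_zero {f : Y →L[ℂ] ℂ} (hf : f ≠ 0) : ∃ z, f z ≠ 0 := by
  by_contra h
  push Not at h
  exact hf (ContinuousLinearMap.ext h)

theorem exists_both_ne {f g : Y →L[ℂ] ℂ} (hf : f ≠ 0) (hg : g ≠ 0) : ∃ z, f z ≠ 0 ∧ g z ≠ 0 := by
  obtain ⟨a, ha⟩ := exists_ne_zero_of_ne_zero hf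
  obtain ⟨b, hb⟩ := exists_ne_zero_of_ne_zero hg
  by_cases h1 : g a = 0
  · by_cases h2 : f b = 0
    · refine ⟨a + b, ?_, ?_⟩
      · rwa [map_add, h2, add_zero]
      · rwa [map_add, h1, zero_add]
    · exact ⟨b, h2, hb⟩
  · exact ⟨a, ha, h1⟩

theorem rk_smul (u : Y) (c : ℂ) (k : Y →L[ℂ] ℂ) : rk u (c • k) = rk (c • u) k := by
  ext z
  simp only [rk_apply, ContinuousLinearMap.smul_apply, smul_eq_mul, smul_smul, mul_comm]

theorem smul_rk (u : Y) (c : ℂ) (k : Y →L[ℂ] ℂ) : c • rk u k = rk (c • u) k := by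
  ext z
  simp only [rk_apply, ContinuousLinearMap.smul_apply, smul_smul, mul_comm]

theorem rk_zero_left (k : Y →L[ℂ] ℂ) : rk (0 : Y) k = 0 := by
  ext z
  simp

theorem rk_zero_right (u : Y) : rk u (0 : Y →L[ℂ] ℂ) = 0 := by
  ext z
  simp

theorem rk_ne_zero {u : Y} {k : Y →L[ℂ] ℂ} (hu : u ≠ 0) (hk : k ≠ 0) : rk u k ≠ 0 := by
  obtain ⟨z, hz⟩ := exists_ne_zero_of_ne_zero hk
  intro h
  have := congrArg (fun T => T z) h
  simp only [rk_apply, ContinuousLinearMap.zero_apply] at this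
  exact smul_ne_zero hz hu this

/-- uniqueness of the representation of a rank one operator -/
theorem rk_par {a b : Y} {f g : Y →L[ℂ] ℂ} (ha : a ≠ 0) (hf : f ≠ 0) (hb : b ≠ 0)
    (h : rk a f = rk b g) : Par a b ∧ Par f g := by
  obtain ⟨z, hz⟩ := exists_ne_zero_of_ne_zero hf
  have h1 : ∀ z, f z • a = g z • b := fun z => congrArg (fun T => T z) h
  have hgz : g z ≠ 0 := by
    intro h0
    have := h1 z
    rw [h0, zero_smul] at this
    exact smul_ne_zero hz ha this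
  have hb' : b = (f z / g z) • a := by
    have := h1 z
    rw [div_eq_inv_mul, mul_smul, this, smul_smul, inv_mul_cancel₀ hgz, one_smul]
  have hc : f z / g z ≠ 0 := div_ne_zero hz hgz
  refine ⟨⟨_, hc, hb'⟩, Par.symm ⟨f z / g z, hc, ?_⟩⟩
  ext w
  have h2 := h1 w
  rw [hb', smul_smul] at h2
  have h3 : (f w - g w * (f z / g z)) • a = 0 := by rw [sub_smul, h2, sub_self]
  have h4 : f w - g w * (f z / g z) = 0 := by
    rcases smul_eq_zero.1 h3 with h5 | h5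
    · exact h5
    · exact absurd h5 ha
  change f w = (f z / g z) * g w
  linear_combination h4

end rk

end H67

end PR
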